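import Pool.Agent.X184.SS.Stm

/-! Project SS (MP_3cdc4e_an), parts STEP and BASE from one core lemma. -/

set_option autoImplicit false

namespace Pool.Agent.X227.SS

open Finset Pool.Agent.X184.SS

theorem empty_mem (n : ℕ) : (∅ : Finset ℕ) ∈ Sch n := by
  cases n with
  | zero => simp [Sch]
  | succ n => exact ⟨0, fun i => i.elim0, fun i => i.elim0, fun i => i.elim0, by simp, by simp⟩

theorem mono_succ (n : ℕ) {F : Finset ℕ} (hF : F ∈ Sch n) : F ∈ Sch (n + 1) := by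
  by_cases h : F = ∅
  · subst h; exact empty_mem _
  · refine ⟨1, fun _ => F, fun _ => ⟨Finset.nonempty_iff_ne_empty.2 h, hF⟩, ?_, ?_, ?_⟩
    · intro i j hij
      exact absurd hij (by rw [Subsingleton.elim i j]; exact lt_irrefl _)
    · ext a; simp
    · intro a _; omega

theorem mono {n m : ℕ} (h : n ≤ m) {F : Finset ℕ} (hF : F ∈ Sch n) : F ∈ Sch m := by
  induction h with
  | refl => exact hF
  | step _ ih => exact mono_succ _ ih

theorem single_mem (n a : ℕ) : ({a} : Finset ℕ) ∈ Sch n :=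
  mono (Nat.zero_le n) (by simp [Sch])

/-- the sums are bounded -/
theorem bdd (her : ∀ (n : ℕ) (F G : Finset ℕ), F ∈ Sch n → G ⊆ F → G ∈ Sch n)
    (Z : Submodule ℝ (ℕ → ℝ)) (n : ℕ) (hT : Tails Z n) (w : ℕ → ℝ) (hw : w ∈ Z) :
    ∃ B : ℝ, ∀ F ∈ Sch (n + 1), ∑ j ∈ F, |w j| ≤ B := by
  obtain ⟨N, hN⟩ := hT w hw 1 one_pos
  refine ⟨∑ j ∈ range N, |w j| + 1, fun F hF => ?_⟩
  rw [← Finset.sum_filter_add_sum_filter_not F (fun a => a < N)]
  refine add_le_add ?_ ?_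
  · apply Finset.sum_le_sum_of_subset_of_nonneg
    · intro a ha
      exact mem_range.2 (mem_filter.1 ha).2
    · intro a _ _
      exact abs_nonneg _
  · apply hN _ (her _ F _ hF (filter_subset _ _))
    intro a ha
    have := (mem_filter.1 ha).2
    omega

/-- normalisation -/
theorem normalise (her : ∀ (n : ℕ) (F G : Finset ℕ), F ∈ Sch n → G ⊆ F → G ∈ Sch n)
    (Z : Submodule ℝ (ℕ → ℝ)) (n : ℕ) (hT : Tails Z n) (K : Set (Finset ℕ))
    (w : ℕ → ℝ) (hw : w ∈ Z) (N : ℕ) (hv : ∀ j < N, w j = 0) (L B : ℝ) (hL : 0 < L)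
    (F₀ : Finset ℕ) (hF₀ : F₀ ∈ Sch (n + 1)) (h0 : L ≤ ∑ j ∈ F₀, |w j|)
    (hB0 : 0 ≤ B) (hK : ∀ F ∈ K, ∑ j ∈ F, |w j| ≤ B) :
    ∃ z ∈ Z, (∀ j < N, z j = 0) ∧ (∀ F ∈ Sch (n + 1), ∑ j ∈ F, |z j| ≤ 1) ∧
      (∃ F ∈ Sch (n + 1), 1 / 2 ≤ ∑ j ∈ F, |z j|) ∧ ∀ F ∈ K, ∑ j ∈ F, |z j| ≤ B / L := by
  obtain ⟨B', hB'⟩ := bdd her Z n hT w hw
  set T : Set ℝ := {r | ∃ F ∈ Sch (n + 1), r = ∑ j ∈ F, |w j|} with hTdef
  have hbd : BddAbove T := ⟨B', by rintro r ⟨F, hF, rfl⟩; exact hB' F hF⟩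
  have hne : T.Nonempty := ⟨_, F₀, hF₀, rfl⟩
  set S := sSup T with hS
  have hle : ∀ F ∈ Sch (n + 1), ∑ j ∈ F, |w j| ≤ S := fun F hF => le_csSup hbd ⟨F, hF, rfl⟩
  have hLS : L ≤ S := h0.trans (hle F₀ hF₀)
  have hSpos : 0 < S := lt_of_lt_of_le hL hLS
  have hsum : ∀ F : Finset ℕ, ∑ j ∈ F, |(S⁻¹ • w) j| = (∑ j ∈ F, |w j|) / S := by
    intro F
    rw [div_eq_inv_mul, Finset.mul_sum]
    refine Finset.sum_congr rfl fun j _ => ?_
    rw [Pi.smul_apply, smul_eq_mul, abs_mul, abs_of_pos (inv_pos.2 hSpos)]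
  refine ⟨S⁻¹ • w, Z.smul_mem _ hw, fun j hj => by simp [hv j hj], fun F hF => ?_, ?_, ?_⟩
  · rw [hsum, div_le_one hSpos]
    exact hle F hF
  · obtain ⟨r, ⟨F, hF, rfl⟩, hr⟩ := exists_lt_of_lt_csSup hne (show S / 2 < sSup T by
      rw [← hS]; linarith)
    refine ⟨F, hF, ?_⟩
    rw [hsum, le_div_iff₀ hSpos]
    linarith
  · intro F hF
    rw [hsum]
    calc (∑ j ∈ F, |w j|) / S ≤ B / S := by
          apply div_le_div_of_nonneg_right (hK F hF) hSpos.le
      _ ≤ B / L := div_le_div_of_nonneg_left hB0 hL hLS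

theorem iter (her : ∀ (n : ℕ) (F G : Finset ℕ), F ∈ Sch n → G ⊆ F → G ∈ Sch n)
    (Z : Submodule ℝ (ℕ → ℝ)) (n : ℕ) (C : ℝ) (hC : 0 < C) (hT : Tails Z n) (hD : Dom Z n C)
    (K : Set (Finset ℕ)) (hsub : ∀ F ∈ K, F ∈ Sch (n + 1)) (η : ℝ) (hη : 0 < η)
    (hex : ∀ M : ℕ, ∃ z ∈ Z, (∀ j < M, z j = 0) ∧ (∀ F ∈ Sch (n + 1), ∑ j ∈ F, |z j| ≤ 1) ∧
      (∃ F ∈ Sch (n + 1), 1 / 2 ≤ ∑ j ∈ F, |z j|) ∧
      ∀ F ∈ K, (∃ a ∈ F, a < M) → ∑ j ∈ F, |z j| ≤ η) (N₀ : ℕ) : ∀ l : ℕ,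
    ∃ w ∈ Z, (∀ j < N₀, w j = 0) ∧ (∀ F ∈ K, ∑ j ∈ F, |w j| ≤ 1 + l * η) ∧
      ∃ (G : ℕ → Finset ℕ) (M : ℕ), N₀ ≤ M ∧ (∀ r < l, G r ∈ Sch n) ∧
        (∀ r r', r < r' → r' < l → ∀ a ∈ G r, ∀ b ∈ G r', a < b) ∧
        (∀ r < l, ∀ a ∈ G r, N₀ ≤ a ∧ a < M) ∧
        l * (1 / (3 * C) - η) ≤ ∑ j ∈ (range l).biUnion G, |w j| := by
  intro l
  induction l with
  | zero =>
    exact ⟨0, Z.zero_mem, fun _ _ => rfl, fun F _ => by simp, fun _ => ∅, N₀, le_rfl,
      by simp, by simp, by simp, by simp⟩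
  | succ l ih =>
    obtain ⟨w, hwZ, hw0, hwF, G, M, hM, hG, hord, hGM, hsum⟩ := ih
    obtain ⟨M₁, hM₁⟩ := hT w hwZ η hη
    obtain ⟨z, hzZ, hz0, hz1, ⟨F₁, hF₁, hF₁z⟩, hzF⟩ := hex (max M M₁)
    have hMM : M ≤ max M M₁ := le_max_left _ _
    have hM₁M : M₁ ≤ max M M₁ := le_max_right _ _
    generalize max M M₁ = M' at hz0 hzF hMM hM₁M
    have hbig : ∃ G₁ ∈ Sch n, 1 / (3 * C) < ∑ j ∈ G₁, |z j| := by
      by_contra hcon
      push Not at hcon
      have h1 := hD z hzZ _ hcon F₁ hF₁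
      have h2 : C * (1 / (3 * C)) = 1 / 3 := by field_simp
      linarith
    obtain ⟨G₁, hG₁, hG₁z⟩ := hbig
    obtain ⟨G₂, hG₂def⟩ : ∃ G₂, G₂ = G₁.filter (fun a => M' ≤ a) := ⟨_, rfl⟩
    have hG₂mem : ∀ a ∈ G₂, M' ≤ a := fun a ha => by
      rw [hG₂def] at ha
      exact (mem_filter.1 ha).2
    have hG₂ : G₂ ∈ Sch n := her n G₁ G₂ hG₁ (by rw [hG₂def]; exact filter_subset _ _)
    have hG₂z : ∑ j ∈ G₂, |z j| = ∑ j ∈ G₁, |z j| := by
      rw [hG₂def]
      apply Finset.sum_subset (filter_subset _ _)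
      intro a ha ha'
      have : a < M' := by
        by_contra h
        exact ha' (mem_filter.2 ⟨ha, by omega⟩)
      rw [hz0 a this, abs_zero]
    have hG₂w : ∑ j ∈ G₂, |w j| ≤ η := hM₁ G₂ (mono_succ _ hG₂)
      (fun a ha => hM₁M.trans (hG₂mem a ha))
    refine ⟨w + z, Z.add_mem hwZ hzZ, ?_, ?_, Function.update G l G₂, (G₂.sup id) + M' + 1,
      ?_, ?_, ?_, ?_, ?_⟩
    · intro j hj
      rw [Pi.add_apply, hw0 j hj, hz0 j (by omega), add_zero]
    · intro F hF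
      have h1 : ∑ j ∈ F, |(w + z) j| ≤ (∑ j ∈ F, |w j|) + ∑ j ∈ F, |z j| := by
        rw [← Finset.sum_add_distrib]
        exact Finset.sum_le_sum fun j _ => abs_add_le _ _
      by_cases h : ∃ a ∈ F, a < M'
      · have h2 := hwF F hF
        have h3 := hzF F hF h
        push_cast
        linarith
      · push Not at h
        have h2 := hM₁ F (hsub F hF) (fun a ha => hM₁M.trans (h a ha))
        have h3 := hz1 F (hsub F hF)
        have h4 : 0 ≤ (l : ℝ) * η := by positivity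
        push_cast
        linarith
    · omega
    · intro r hr
      by_cases h : r = l
      · subst h; simpa using hG₂
      · rw [Function.update_of_ne h]
        exact hG r (by omega)
    · intro r r' hrr' hr' a ha b hb
      have hr : r ≠ l := by omega
      rw [Function.update_of_ne hr] at ha
      by_cases h : r' = l
      · subst h
        rw [Function.update_self] at hb
        have h1 := (hGM r (by omega) a ha).2
        have h2 := hG₂mem b hb
        omega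
      · rw [Function.update_of_ne h] at hb
        exact hord r r' hrr' (by omega) a ha b hb
    · intro r hr a ha
      by_cases h : r = l
      · subst h
        rw [Function.update_self] at ha
        have h1 := hG₂mem a ha
        have h2 : a ≤ G₂.sup id := Finset.le_sup (f := id) ha
        omega
      · rw [Function.update_of_ne h] at ha
        have h1 := hGM r (by omega) a ha
        omega
    · have e1 : (range (l + 1)).biUnion (Function.update G l G₂) = (range l).biUnion G ∪ G₂ := by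
        ext a
        simp only [mem_biUnion, mem_range, mem_union]
        constructor
        · rintro ⟨r, hr, ha⟩
          by_cases h : r = l
          · subst h
            rw [Function.update_self] at ha
            exact Or.inr ha
          · rw [Function.update_of_ne h] at ha
            exact Or.inl ⟨r, by omega, ha⟩
        · rintro (⟨r, hr, ha⟩ | ha)
          · exact ⟨r, by omega, by rwa [Function.update_of_ne (by omega)]⟩
          · exact ⟨l, by omega, by rwa [Function.update_self]⟩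
      have hlt : ∀ a ∈ (range l).biUnion G, a < M' := by
        intro a ha
        obtain ⟨r, hr, ha⟩ := mem_biUnion.1 ha
        have := (hGM r (mem_range.1 hr) a ha).2
        omega
      have hdis : Disjoint ((range l).biUnion G) G₂ := by
        rw [Finset.disjoint_left]
        intro a ha ha'
        have h1 := hlt a ha
        have h2 := hG₂mem a ha'
        omega
      rw [e1, Finset.sum_union hdis]
      have h1 : ∑ j ∈ (range l).biUnion G, |(w + z) j| = ∑ j ∈ (range l).biUnion G, |w j| := by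
        refine Finset.sum_congr rfl fun j hj => ?_
        rw [Pi.add_apply, hz0 j (hlt j hj), add_zero]
      have h2 : (∑ j ∈ G₂, |z j|) - (∑ j ∈ G₂, |w j|) ≤ ∑ j ∈ G₂, |(w + z) j| := by
        rw [← Finset.sum_sub_distrib]
        refine Finset.sum_le_sum fun j _ => ?_
        rw [Pi.add_apply]
        have := abs_sub_abs_le_abs_sub (z j) (-(w j))
        rw [abs_neg, sub_neg_eq_add, add_comm (z j)] at this
        exact this
      rw [h1]
      push_cast
      linarith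

theorem core (uni : S_UNI) (her : ∀ (n : ℕ) (F G : Finset ℕ), F ∈ Sch n → G ⊆ F → G ∈ Sch n)
    (Z : Submodule ℝ (ℕ → ℝ)) (n : ℕ) (C : ℝ) (hC : 0 < C) (hT : Tails Z n) (hD : Dom Z n C)
    (K : Set (Finset ℕ)) (hsub : ∀ F ∈ K, F ∈ Sch (n + 1))
    (hex : ∀ η : ℝ, 0 < η → ∀ M : ℕ, ∃ z ∈ Z, (∀ j < M, z j = 0) ∧
      (∀ F ∈ Sch (n + 1), ∑ j ∈ F, |z j| ≤ 1) ∧
      (∃ F ∈ Sch (n + 1), 1 / 2 ≤ ∑ j ∈ F, |z j|) ∧
      ∀ F ∈ K, (∃ a ∈ F, a < M) → ∑ j ∈ F, |z j| ≤ η) :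
    ∀ ε : ℝ, 0 < ε → ∀ N : ℕ, ∃ z ∈ Z, (∀ j < N, z j = 0) ∧
      (∀ F ∈ Sch (n + 1), ∑ j ∈ F, |z j| ≤ 1) ∧
      (∃ F ∈ Sch (n + 1), 1 / 2 ≤ ∑ j ∈ F, |z j|) ∧ ∀ F ∈ K, ∑ j ∈ F, |z j| ≤ ε := by
  intro ε hε N
  obtain ⟨p, hp⟩ := exists_nat_gt (3 * C * (2 / ε + 1))
  have hp0 : (0 : ℝ) < p := lt_of_le_of_lt (by positivity) hp
  obtain ⟨w, hwZ, hw0, hwF, G, M, hM, hG, hord, hGM, hsum⟩ :=
    iter her Z n C hC hT hD K hsub (1 / p) (by positivity) (hex (1 / p) (by positivity))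
      (max N p) p
  have hU : (univ : Finset (Fin p)).biUnion (fun i : Fin p => G i) = (range p).biUnion G := by
    ext a
    simp only [mem_biUnion, mem_range, mem_univ, true_and]
    constructor
    · rintro ⟨i, hi⟩
      exact ⟨i, i.2, hi⟩
    · rintro ⟨r, hr, ha⟩
      exact ⟨⟨r, hr⟩, ha⟩
  have hUS : (range p).biUnion G ∈ Sch (n + 1) := by
    rw [← hU]
    refine uni n p (fun i => G i) (fun i => hG i i.2) ?_ ?_
    · intro i j hij a ha b hb
      exact hord i j hij j.2 a ha b hb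
    · intro i a ha
      have := (hGM i i.2 a ha).1
      have h2 : p ≤ max N p := le_max_right _ _
      omega
  have h1 : (p : ℝ) * (1 / (3 * C) - 1 / p) = p / (3 * C) - 1 := by
    field_simp
  have h2 : 2 / ε + 1 < p / (3 * C) := by
    rw [lt_div_iff₀ (by positivity)]
    linarith
  rw [h1] at hsum
  have h3 : 1 + (p : ℝ) * (1 / p) = 2 := by
    rw [mul_one_div_cancel hp0.ne']
    norm_num
  rw [h3] at hwF
  obtain ⟨z, hz, hz0, hz1, hz2, hzK⟩ := normalise her Z n hT K w hwZ N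
    (fun j hj => hw0 j (lt_of_lt_of_le hj (le_max_left _ _))) (2 / ε) 2 (by positivity)
    _ hUS (by linarith) (by norm_num) hwF
  refine ⟨z, hz, hz0, hz1, hz2, fun F hF => ?_⟩
  have := hzK F hF
  rwa [div_div_eq_mul_div, mul_div_assoc, mul_comm, div_mul_cancel₀ _ (by norm_num : (2:ℝ) ≠ 0)]
    at this

theorem t_STEP : S_STEP := by
  intro uni her Z n C hC hT hD i hi hgood
  refine core uni her Z n C hC hT hD (Sch (i + 1)) (fun F hF => mono (by omega) hF) ?_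
  intro η hη M
  obtain ⟨z, hz, hz0, hz1, hz2, hzi⟩ := hgood (η / (M + 1)) (by positivity) M
  refine ⟨z, hz, hz0, hz1, hz2, ?_⟩
  rintro F ⟨k, G, hG, hord, hFU, hk⟩ ⟨a, ha, haM⟩
  have hkM : k ≤ M := by
    have := hk a ha
    omega
  have h1 : ∑ j ∈ F, |z j| = ∑ i : Fin k, ∑ j ∈ G i, |z j| := by
    rw [hFU]
    apply Finset.sum_biUnion
    intro r _ r' _ hrr'
    rw [Function.onFun, Finset.disjoint_left]
    intro b hb hb'
    rcases lt_or_gt_of_ne hrr' with h | h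
    · exact lt_irrefl _ (hord r r' h b hb b hb')
    · exact lt_irrefl _ (hord r' r h b hb' b hb)
  have h2 : ∑ i : Fin k, ∑ j ∈ G i, |z j| ≤ ∑ _i : Fin k, η / (M + 1) :=
    Finset.sum_le_sum fun r _ => hzi (G r) (hG r).2
  have h3 : ∑ _i : Fin k, η / ((M : ℝ) + 1) = k * (η / (M + 1)) := by simp
  have h4 : (k : ℝ) * (η / (M + 1)) ≤ η := by
    rw [← mul_div_assoc, div_le_iff₀ (by positivity)]
    have : (k : ℝ) ≤ M := by exact_mod_cast hkM
    nlinarith
  linarith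

theorem t_BASE : S_BASE := by
  intro uni her Z n C hfin hC hT hD
  refine core uni her Z n C hC hT hD (Sch 0) (fun F hF => mono (Nat.zero_le _) hF) ?_
  intro η hη M
  -- a nonzero vector vanishing before `M`
  have hex : ∃ z ∈ Z, (∀ j < M, z j = 0) ∧ ∃ a, z a ≠ 0 := by
    by_contra hcon
    push Not at hcon
    apply hfin
    let φ : Z →ₗ[ℝ] (Fin M → ℝ) :=
      { toFun := fun z j => (z : ℕ → ℝ) j
        map_add' := fun _ _ => rfl
        map_smul' := fun _ _ => rfl }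
    have hinj : Function.Injective φ := by
      rw [injective_iff_map_eq_zero]
      intro z hz
      apply Subtype.ext
      funext a
      refine hcon z z.2 (fun j hj => ?_) a
      exact congrFun hz ⟨j, hj⟩
    exact Module.Finite.of_injective φ hinj
  obtain ⟨z, hz, hz0, a, ha⟩ := hex
  obtain ⟨z', h1, h2, h3, h4, -⟩ := normalise her Z n hT ∅ z hz M hz0 |z a| 0 (abs_pos.2 ha) {a}
    (single_mem _ _) (by simp) le_rfl (by simp)
  refine ⟨z', h1, h2, h3, h4, ?_⟩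
  rintro F hF ⟨b, hb, hbM⟩
  have hFb : F = {b} := by
    have hc : F.card ≤ 1 := hF
    rw [Finset.card_le_one] at hc
    ext x
    rw [mem_singleton]
    constructor
    · intro hx
      exact hc x hx b hb
    · rintro rfl
      exact hb
  rw [hFb, Finset.sum_singleton, h2 b hbM, abs_zero]
  exact hη.le

end Pool.Agent.X227.SS
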