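import Pool.Agent.X184.SS.Stm2
import Pool.Agent.X227.SS.Step

set_option autoImplicit false

namespace Pool.Agent.X227.SS

open Finset Pool.Agent.X184.SS

def LemAt (n : ℕ) (N : Set ℕ) : Prop := ∀ ε : ℝ, 0 < ε → ∃ p : ℕ, ∀ u : ℕ,
    ∃ (z : ℕ →₀ ℝ) (G : Fin p → Finset ℕ), (∀ j, 0 ≤ z j) ∧ ∑ j ∈ z.support, z j = 1 ∧
      (∀ j ∈ z.support, j ∈ N ∧ u ≤ j) ∧ z.support ⊆ univ.biUnion G ∧ (∀ r, G r ∈ Sch n) ∧
      (∀ r s, r < s → ∀ a ∈ G r, ∀ b ∈ G s, a < b) ∧ (∀ r, ∀ a ∈ G r, a ∈ z.support) ∧
      ∀ F ∈ Sch n, ∑ j ∈ F, z j ≤ ε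

theorem iterL (uni : S_UNI) (her : ∀ (n : ℕ) (F G : Finset ℕ), F ∈ Sch n → G ⊆ F → G ∈ Sch n)
    (n : ℕ) (N : Set ℕ) (hN : LemAt n N) (η : ℝ) (hη : 0 < η) (u : ℕ) : ∀ l : ℕ,
    ∃ (y : ℕ →₀ ℝ) (G : ℕ → Finset ℕ) (M : ℕ), (∀ j, 0 ≤ y j) ∧ ∑ j ∈ y.support, y j = l ∧
      (∀ j ∈ y.support, j ∈ N ∧ u ≤ j) ∧ y.support = (range l).biUnion G ∧
      (∀ r < l, G r ∈ Sch (n + 1)) ∧
      (∀ r s, r < s → s < l → ∀ a ∈ G r, ∀ b ∈ G s, a < b) ∧ (∀ j ∈ y.support, j < M) ∧
      ∀ F ∈ Sch (n + 1), ∑ j ∈ F, y j ≤ 1 + l * η := by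
  intro l
  induction l with
  | zero =>
    refine ⟨0, fun _ => ∅, 0, by simp, by simp, by simp, by simp, by simp, by simp, by simp, ?_⟩
    intro F _
    simp
  | succ l ih =>
    obtain ⟨y, G, M, hy0, hy1, hyN, hyG, hG, hord, hM, hF⟩ := ih
    obtain ⟨p, hp⟩ := hN (η / (M + 1)) (by positivity)
    obtain ⟨w, K, hw0, hw1, hwN, hwK, hK, hKord, hKs, hwF⟩ := hp (max u (max M p))
    have hwM : ∀ j ∈ w.support, M ≤ j := fun j hj => by
      have := (hwN j hj).2
      omega
    have hwS : w.support ∈ Sch (n + 1) := by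
      refine her _ _ _ (uni n p K hK hKord ?_) hwK
      intro i a ha
      have := (hwN a (hKs i a ha)).2
      omega
    have hdis : Disjoint y.support w.support := by
      rw [Finset.disjoint_left]
      intro a ha hb
      have := hM a ha
      have := hwM a hb
      omega
    have hsupp : (y + w).support = y.support ∪ w.support := Finsupp.support_add_eq hdis
    have hyz : ∀ j, M ≤ j → y j = 0 := by
      intro j hj
      by_contra hc
      have := hM j (Finsupp.mem_support_iff.2 hc)
      omega
    have hwz : ∀ j, j < M → w j = 0 := by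
      intro j hj
      by_contra hc
      have := hwM j (Finsupp.mem_support_iff.2 hc)
      omega
    have hsw : ∀ F : Finset ℕ, ∑ j ∈ F, w j ≤ 1 := by
      intro F
      rw [← hw1]
      have : ∑ j ∈ F, w j = ∑ j ∈ F ∩ w.support, w j := by
        symm
        apply Finset.sum_subset inter_subset_left
        intro x hx hx'
        by_contra hc
        exact hx' (mem_inter.2 ⟨hx, Finsupp.mem_support_iff.2 hc⟩)
      rw [this]
      exact Finset.sum_le_sum_of_subset_of_nonneg inter_subset_right (fun j _ _ => hw0 j)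
    refine ⟨y + w, Function.update G l w.support, M + w.support.sup id + 1, ?_, ?_, ?_, ?_, ?_,
      ?_, ?_, ?_⟩
    · intro j
      exact add_nonneg (hy0 j) (hw0 j)
    · rw [hsupp, Finset.sum_union hdis]
      have e1 : ∑ j ∈ y.support, (y + w) j = ∑ j ∈ y.support, y j :=
        Finset.sum_congr rfl fun j hj => by
          rw [Finsupp.add_apply, hwz j (hM j hj), add_zero]
      have e2 : ∑ j ∈ w.support, (y + w) j = ∑ j ∈ w.support, w j :=
        Finset.sum_congr rfl fun j hj => by
          rw [Finsupp.add_apply, hyz j (hwM j hj), zero_add]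
      rw [e1, e2, hy1, hw1]
      push_cast
      ring
    · intro j hj
      rw [hsupp] at hj
      rcases mem_union.1 hj with h | h
      · exact hyN j h
      · have := hwN j h
        exact ⟨this.1, by omega⟩
    · rw [hsupp, hyG]
      ext a
      simp only [mem_biUnion, mem_range, mem_union]
      constructor
      · rintro (⟨r, hr, ha⟩ | ha)
        · exact ⟨r, by omega, by rwa [Function.update_of_ne (by omega)]⟩
        · exact ⟨l, by omega, by rwa [Function.update_self]⟩
      · rintro ⟨r, hr, ha⟩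
        by_cases h : r = l
        · subst h
          rw [Function.update_self] at ha
          exact Or.inr ha
        · rw [Function.update_of_ne h] at ha
          exact Or.inl ⟨r, by omega, ha⟩
    · intro r hr
      by_cases h : r = l
      · subst h; simpa using hwS
      · rw [Function.update_of_ne h]
        exact hG r (by omega)
    · intro r s hrs hs a ha b hb
      rw [Function.update_of_ne (by omega : r ≠ l)] at ha
      by_cases h : s = l
      · subst h
        rw [Function.update_self] at hb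
        have h1 : a ∈ y.support := by
          rw [hyG]
          exact mem_biUnion.2 ⟨r, mem_range.2 hrs, ha⟩
        have h2 := hM a h1
        have h3 := hwM b hb
        omega
      · rw [Function.update_of_ne h] at hb
        exact hord r s hrs (by omega) a ha b hb
    · intro j hj
      rw [hsupp] at hj
      rcases mem_union.1 hj with h | h
      · have := hM j h
        omega
      · have : j ≤ w.support.sup id := Finset.le_sup (f := id) h
        omega
    · intro F hFS
      have e0 : ∑ j ∈ F, (y + w) j = ∑ j ∈ F, y j + ∑ j ∈ F, w j := by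
        rw [← Finset.sum_add_distrib]
        rfl
      rw [e0]
      by_cases h : ∃ a ∈ F, a < M
      · obtain ⟨a, ha, haM⟩ := h
        have h1 := hF F hFS
        obtain ⟨k, P, hP, hPord, hFP, hk⟩ := hFS
        have hkM : k ≤ M := by
          have := hk a ha
          omega
        have h2 : ∑ j ∈ F, w j = ∑ i : Fin k, ∑ j ∈ P i, w j := by
          rw [hFP]
          apply Finset.sum_biUnion
          intro r _ r' _ hrr'
          rw [Function.onFun, Finset.disjoint_left]
          intro b hb hb'
          rcases lt_or_gt_of_ne hrr' with h | h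
          · exact lt_irrefl _ (hPord r r' h b hb b hb')
          · exact lt_irrefl _ (hPord r' r h b hb' b hb)
        have h3 : ∑ i : Fin k, ∑ j ∈ P i, w j ≤ ∑ _i : Fin k, η / (M + 1) :=
          Finset.sum_le_sum fun r _ => hwF (P r) (hP r).2
        have h4 : ∑ _i : Fin k, η / ((M : ℝ) + 1) = k * (η / (M + 1)) := by simp
        have h5 : (k : ℝ) * (η / (M + 1)) ≤ η := by
          rw [← mul_div_assoc, div_le_iff₀ (by positivity)]
          have : (k : ℝ) ≤ M := by exact_mod_cast hkM
          nlinarith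
        push_cast
        linarith
      · push Not at h
        have h1 : ∑ j ∈ F, y j = 0 := Finset.sum_eq_zero fun j hj => hyz j (h j hj)
        have h2 := hsw F
        rw [h1]
        push_cast
        have : 0 ≤ ((l : ℝ) + 1) * η := by positivity
        linarith

theorem t_LEM : S_LEM := by
  intro uni her n
  induction n with
  | zero =>
    intro N hN ε hε
    obtain ⟨p, hp⟩ := exists_nat_gt (1 / ε)
    have hp0 : (0 : ℝ) < p := lt_of_le_of_lt (by positivity) hp
    refine ⟨p, fun u => ?_⟩
    have hinf : {j | j ∈ N ∧ u ≤ j}.Infinite := by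
      intro hfin
      apply hN
      refine (hfin.union (Set.finite_lt_nat u)).subset ?_
      intro j hj
      by_cases h : u ≤ j
      · exact Or.inl ⟨hj, h⟩
      · exact Or.inr (by simpa using h)
    obtain ⟨e, he⟩ : ∃ e : ℕ → ℕ, StrictMono e ∧ ∀ r, e r ∈ N ∧ u ≤ e r :=
      ⟨Nat.nth (fun j => j ∈ N ∧ u ≤ j), Nat.nth_strictMono hinf,
        fun r => Nat.nth_mem_of_infinite hinf r⟩
    obtain ⟨hmono, hmem⟩ := he
    let S : Finset ℕ := (range p).image e
    let z : ℕ →₀ ℝ := Finsupp.onFinset S (fun j => if j ∈ S then 1 / p else 0) (by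
      intro j hj
      by_contra hc
      simp [hc] at hj)
    have hz : ∀ j, z j = if j ∈ S then 1 / (p : ℝ) else 0 := fun j => rfl
    have hsupp : z.support = S := by
      ext j
      rw [Finsupp.mem_support_iff, hz]
      by_cases h : j ∈ S
      · simp [h, hp0.ne']
      · simp [h]
    have hcard : S.card = p := by
      rw [Finset.card_image_of_injective _ hmono.injective, card_range]
    refine ⟨z, fun r => {e r}, ?_, ?_, ?_, ?_, ?_, ?_, ?_, ?_⟩
    · intro j
      rw [hz]
      split_ifs
      · positivity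
      · exact le_rfl
    · rw [hsupp, Finset.sum_congr rfl (fun j hj => by rw [hz, if_pos hj]), Finset.sum_const,
        hcard, nsmul_eq_mul, mul_one_div_cancel hp0.ne']
    · intro j hj
      rw [hsupp] at hj
      obtain ⟨r, _, rfl⟩ := mem_image.1 hj
      exact hmem r
    · rw [hsupp]
      intro j hj
      obtain ⟨r, hr, rfl⟩ := mem_image.1 hj
      exact mem_biUnion.2 ⟨⟨r, mem_range.1 hr⟩, mem_univ _, mem_singleton.2 rfl⟩
    · intro r
      exact single_mem _ _
    · intro r s hrs a ha b hb
      rw [mem_singleton] at ha hb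
      rw [ha, hb]
      exact hmono hrs
    · intro r a ha
      rw [mem_singleton] at ha
      rw [hsupp, ha]
      exact mem_image.2 ⟨r, mem_range.2 r.2, rfl⟩
    · intro F hF
      have h1 : ∑ j ∈ F, z j ≤ ∑ _j ∈ F, 1 / (p : ℝ) := by
        refine Finset.sum_le_sum fun j _ => ?_
        rw [hz]
        split_ifs
        · exact le_rfl
        · positivity
      have h2 : ∑ _j ∈ F, 1 / (p : ℝ) = F.card * (1 / p) := by simp
      have hc : F.card ≤ 1 := hF
      have h3 : (F.card : ℝ) ≤ 1 := by exact_mod_cast hc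
      have h4 : 1 / (p : ℝ) ≤ ε := by
        rw [div_le_iff₀ hp0]
        rw [div_lt_iff₀ hε] at hp
        linarith
      have h5 : 0 < 1 / (p : ℝ) := by positivity
      nlinarith
  | succ n ih =>
    intro N hN ε hε
    obtain ⟨p, hp⟩ := exists_nat_gt (2 / ε)
    have hp0 : (0 : ℝ) < p := lt_of_le_of_lt (by positivity) hp
    refine ⟨p, fun u => ?_⟩
    obtain ⟨y, G, M, hy0, hy1, hyN, hyG, hG, hord, hM, hF⟩ :=
      iterL uni her n N (ih N hN) (1 / p) (by positivity) u p
    have hsupp : ((1 / (p : ℝ)) • y).support = y.support := by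
      ext j
      simp [hp0.ne']
    refine ⟨(1 / (p : ℝ)) • y, fun r => G r, ?_, ?_, ?_, ?_, ?_, ?_, ?_, ?_⟩
    · intro j
      rw [Finsupp.smul_apply, smul_eq_mul]
      exact mul_nonneg (by positivity) (hy0 j)
    · rw [hsupp]
      have : ∑ j ∈ y.support, ((1 / (p : ℝ)) • y) j = (1 / (p : ℝ)) * ∑ j ∈ y.support, y j := by
        rw [Finset.mul_sum]
        rfl
      rw [this, hy1, one_div_mul_cancel hp0.ne']
    · rw [hsupp]; exact hyN
    · rw [hsupp, hyG]
      intro a ha
      obtain ⟨r, hr, ha⟩ := mem_biUnion.1 ha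
      exact mem_biUnion.2 ⟨⟨r, mem_range.1 hr⟩, mem_univ _, ha⟩
    · intro r
      exact hG r r.2
    · intro r s hrs
      exact hord r s hrs s.2
    · intro r a ha
      rw [hsupp, hyG]
      exact mem_biUnion.2 ⟨r, mem_range.2 r.2, ha⟩
    · intro F hFS
      have : ∑ j ∈ F, ((1 / (p : ℝ)) • y) j = (1 / (p : ℝ)) * ∑ j ∈ F, y j := by
        rw [Finset.mul_sum]
        rfl
      rw [this]
      have h1 := hF F hFS
      rw [mul_one_div_cancel hp0.ne'] at h1
      have h2 : (1 / (p : ℝ)) * ∑ j ∈ F, y j ≤ (1 / (p : ℝ)) * 2 :=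
        mul_le_mul_of_nonneg_left (by linarith) (by positivity)
      have h3 : (1 / (p : ℝ)) * 2 ≤ ε := by
        rw [one_div_mul_eq_div, div_le_iff₀ hp0]
        rw [div_lt_iff₀ hε] at hp
        linarith
      linarith

end Pool.Agent.X227.SS
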